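import Pool.Agent.RHO.Stmts4

/-!
# Row WSQ: walks in the graph and walks of sequences
-/

open scoped BigOperators

namespace Pool.Agent.RHO.H28d

open Pool.Agent.RHO

theorem wsq (smb : SMBStmt) : WSQStmt := by
  intro A D t M s hs L
  have step : ∀ (i : Fin D) (p : Pt (Fin t × Fin A)), Stp (xM M) i (sq p) (sq (s i p)) := by
    intro i p
    rw [hs i p]
    exact (smb A D t M i).1 p
  induction L with
  | nil => exact fun p => ⟨Wq.nil true (sq p), Wq.nil false (sq p)⟩
  | cons i L ih =>
    intro p
    constructor
    · exact Wq.up (sq p) (sq (s i p)) _ i L (step i p) (ih (s i p)).2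
    · have h1 : Stp (xM M) i (sq ((s i).symm p)) (sq p) := by
        have := step i ((s i).symm p)
        rwa [Equiv.apply_symm_apply] at this
      exact Wq.dn (sq p) (sq ((s i).symm p)) _ i L h1 (ih ((s i).symm p)).1

end Pool.Agent.RHO.H28d
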